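import Mathlib

/-!
Comma-free sets of words and the maximal size `W k n`.
-/

namespace Pool.Agent.CF24

/-- A word of length `k` over an alphabet of `n` letters is a function `Fin k → Fin n`.
A finite set `D` of such words is comma-free if for all `a, b ∈ D` and every `1 ≤ i ≤ k - 1`
the word `a_{i+1} ... a_k b_1 ... b_i` (drop the first `i` letters of `a`, append the first
`i` letters of `b`) is not a member `c` of `D`. -/
def CommaFree {k n : ℕ} (D : Finset (Fin k → Fin n)) : Prop :=
  ∀ a ∈ D, ∀ b ∈ D, ∀ c ∈ D, ∀ i : ℕ, 1 ≤ i → i ≤ k - 1 →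
    List.ofFn c ≠ (List.ofFn a).drop i ++ (List.ofFn b).take i

/-- `W k n` is the largest size of a comma-free set of words of length `k` over an alphabet
of `n` letters. -/
noncomputable def W (k n : ℕ) : ℕ :=
  sSup {m : ℕ | ∃ D : Finset (Fin k → Fin n), CommaFree D ∧ D.card = m}

end Pool.Agent.CF24
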