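import Mathlib
import Pool.Agent.CF24.Defs

namespace Pool.Agent.CF24

/-- the letters of a word as a function on natural numbers -/
def nv {k n : ℕ} (w : Fin k → Fin n) (j : ℕ) : ℕ := if h : j < k then (w ⟨j, h⟩ : ℕ) else 0

lemma nv_eq_getD {k n : ℕ} (w : Fin k → Fin n) (j : ℕ) :
    nv w j = ((List.ofFn w).map (fun x : Fin n => (x : ℕ))).getD j 0 := by
  unfold nv
  split_ifs with h
  · rw [List.getD_eq_getElem _ _ (by simpa using h)]
    simp
  · rw [List.getD_eq_default]
    simpa using h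

lemma nv_window {k n : ℕ} {a b c : Fin k → Fin n} {i : ℕ} (hi : i < k)
    (h : List.ofFn c = (List.ofFn a).drop i ++ (List.ofFn b).take i) (j : ℕ) (hj : j < k) :
    nv c j = if i + j < k then nv a (i + j) else nv b (i + j - k) := by
  rw [nv_eq_getD, h, nv_eq_getD, nv_eq_getD, List.map_append, List.map_drop, List.map_take]
  split_ifs with h1
  · rw [List.getD_append _ _ _ _ (by simp; omega)]
    simp [List.getD_eq_getElem?_getD, List.getElem?_drop]
  · rw [List.getD_append_right _ _ _ _ (by simp; omega)]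
    simp only [List.getD_eq_getElem?_getD]
    congr 1
    rw [List.getElem?_take_of_lt (by simp; omega)]
    congr 1
    simp
    omega

/-- The half word of length `h` starting at position `s` of `g` is tall: its first letter is
larger than all its other letters. -/
def tall (h : ℕ) (g : ℕ → ℕ) (s : ℕ) : Prop := ∀ j, 1 ≤ j → j < h → g (s + j) < g s

open Classical in
/-- the type of the half word at position `s` -/
noncomputable def typ (h c1 c2 : ℕ) (g : ℕ → ℕ) (s : ℕ) : ℕ :=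
  if tall h g s then (if g s < c1 then 0 else if g s < c2 then 1 else 2) else 0

lemma typ_le (h c1 c2 : ℕ) (g : ℕ → ℕ) (s : ℕ) : typ h c1 c2 g s ≤ 2 := by
  unfold typ
  split_ifs <;> omega

lemma typ_congr (h c1 c2 : ℕ) (hh : 0 < h) (g g' : ℕ → ℕ) (s s' : ℕ)
    (H : ∀ j < h, g (s + j) = g' (s' + j)) :
    typ h c1 c2 g s = typ h c1 c2 g' s' := by
  have h0 : g s = g' s' := by simpa using H 0 hh
  have ht : tall h g s ↔ tall h g' s' := by
    unfold tall
    constructor
    · intro h1 j hj hj'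
      rw [← H j hj', ← h0]
      exact h1 j hj hj'
    · intro h1 j hj hj'
      rw [H j hj', h0]
      exact h1 j hj hj'
  unfold typ
  by_cases htt : tall h g s
  · rw [if_pos htt, if_pos (ht.1 htt), h0]
  · rw [if_neg htt, if_neg (fun h' => htt (ht.2 h'))]

/-- membership in the code, in terms of the letter function -/
def good (h c1 c2 : ℕ) (g : ℕ → ℕ) : Prop :=
  (∀ j < 2 * h, j ≠ h → g j < g h) ∧ typ h c1 c2 g 0 < typ h c1 c2 g h

open Classical in
/-- the code -/
noncomputable def code (h c1 c2 n : ℕ) : Finset (Fin (2 * h) → Fin n) :=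
  Finset.univ.filter (fun w => good h c1 c2 (nv w))

lemma commaFree_code (h c1 c2 n : ℕ) (hh : 0 < h) : CommaFree (code h c1 c2 n) := by
  intro a ha b hb c hc i hi1 hi2 heq
  simp only [code, Finset.mem_filter, Finset.mem_univ, true_and] at ha hb hc
  have hw := nv_window (a := a) (b := b) (c := c) (i := i) (by omega) heq
  rcases lt_trichotomy i h with hlt | rfl | hgt
  · have h1 := hc.1 (h - i) (by omega) (by omega)
    have h2 := ha.1 (i + h) (by omega) (by omega)
    have h3 := hw (h - i) (by omega)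
    have h4 := hw h (by omega)
    rw [if_pos (by omega)] at h3 h4
    have h5 : i + (h - i) = h := by omega
    rw [h5] at h3
    omega
  · have hA : typ i c1 c2 (nv c) 0 = typ i c1 c2 (nv a) i := by
      apply typ_congr _ _ _ hh
      intro j hj
      have := hw j (by omega)
      rw [if_pos (by omega)] at this
      simpa using this
    have hB : typ i c1 c2 (nv c) i = typ i c1 c2 (nv b) 0 := by
      apply typ_congr _ _ _ hh
      intro j hj
      have := hw (i + j) (by omega)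
      rw [if_neg (by omega)] at this
      rw [this]
      congr 1
      omega
    have h1 := ha.2
    have h2 := hb.2
    have h3 := hc.2
    have h4 := typ_le i c1 c2 (nv b) i
    omega
  · have h1 := hc.1 (3 * h - i) (by omega) (by omega)
    have h2 := hb.1 (i - h) (by omega) (by omega)
    have h3 := hw (3 * h - i) (by omega)
    have h4 := hw h (by omega)
    rw [if_neg (by omega)] at h3 h4
    have h5 : i + (3 * h - i) - 2 * h = h := by omega
    have h6 : i + h - 2 * h = i - h := by omega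
    rw [h5] at h3
    rw [h6] at h4
    omega

lemma card_le_W {k n : ℕ} (D : Finset (Fin k → Fin n)) (hD : CommaFree D) : D.card ≤ W k n := by
  apply le_csSup
  · refine ⟨Fintype.card (Fin k → Fin n), ?_⟩
    rintro m ⟨D', _, rfl⟩
    exact Finset.card_le_univ _
  · exact ⟨D, hD, rfl⟩


/-! ### Counting -/

/-- letters equal to `m` -/
def eqS (n m : ℕ) : Finset (Fin n) := Finset.univ.filter (fun x : Fin n => (x : ℕ) = m)
/-- letters below `m` -/
def ltS (n m : ℕ) : Finset (Fin n) := Finset.univ.filter (fun x : Fin n => (x : ℕ) < m)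

lemma card_eqS {n m : ℕ} (h : m < n) : (eqS n m).card = 1 := by
  have : eqS n m = {⟨m, h⟩} := by
    ext x
    simp [eqS, Fin.ext_iff]
  rw [this, Finset.card_singleton]

lemma card_ltS {n m : ℕ} (h : m ≤ n) : (ltS n m).card = m := by
  unfold ltS
  rw [Fin.card_filter_val_lt]
  omega

/-- words whose letter number `h` (counting from `0`) is `m` and is larger than all others -/
def Pset (h n m : ℕ) : Finset (Fin (2 * h) → Fin n) :=
  Fintype.piFinset (fun i : Fin (2 * h) => if (i : ℕ) = h then eqS n m else ltS n m)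

/-- words as before, with first half tall with first letter `j` -/
def Rset (h n j m : ℕ) : Finset (Fin (2 * h) → Fin n) :=
  Fintype.piFinset (fun i : Fin (2 * h) => if (i : ℕ) = 0 then eqS n j else
    if (i : ℕ) < h then ltS n j else if (i : ℕ) = h then eqS n m else ltS n m)

lemma card_Pset {h n m : ℕ} (hh : 0 < h) (hm : m < n) :
    (Pset h n m).card = m ^ (2 * h - 1) := by
  unfold Pset
  rw [Fintype.card_piFinset]
  have : ∀ i : Fin (2 * h), (if (i : ℕ) = h then eqS n m else ltS n m).card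
      = (fun i : ℕ => if i = h then 1 else m) i := by
    intro i
    dsimp only
    split_ifs
    · exact card_eqS hm
    · exact card_ltS hm.le
  simp_rw [this]
  rw [Fin.prod_univ_eq_prod_range (fun i : ℕ => if i = h then 1 else m) (2 * h)]
  rw [Finset.prod_ite]
  simp only [Finset.prod_const_one, one_mul, Finset.prod_const]
  congr 1
  rw [Finset.filter_ne', Finset.card_erase_of_mem (by simp; omega), Finset.card_range]

lemma card_Rset {h n j m : ℕ} (hh : 0 < h) (hj : j < m) (hm : m < n) :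
    (Rset h n j m).card = j ^ (h - 1) * m ^ (h - 1) := by
  unfold Rset
  rw [Fintype.card_piFinset]
  have : ∀ i : Fin (2 * h), (if (i : ℕ) = 0 then eqS n j else
    if (i : ℕ) < h then ltS n j else if (i : ℕ) = h then eqS n m else ltS n m).card
      = (fun i : ℕ => if i = 0 then 1 else if i < h then j else if i = h then 1 else m) i := by
    intro i
    dsimp only
    split_ifs
    · exact card_eqS (by omega)
    · exact card_ltS (by omega)
    · exact card_eqS (by omega)
    · exact card_ltS (by omega)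
  simp_rw [this]
  rw [Fin.prod_univ_eq_prod_range
    (fun i : ℕ => if i = 0 then 1 else if i < h then j else if i = h then 1 else m) (2 * h)]
  obtain ⟨h', rfl⟩ : ∃ h', h = h' + 1 := ⟨h - 1, by omega⟩
  rw [two_mul, Finset.prod_range_add, Finset.prod_range_succ', Finset.prod_range_succ']
  simp only [Nat.add_sub_cancel, if_true, mul_one]
  have hA : (∏ x ∈ Finset.range h', (if x + 1 = 0 then 1 else if x + 1 < h' + 1 then j else
      if x + 1 = h' + 1 then 1 else m)) = j ^ h' := by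
    rw [Finset.prod_congr rfl (g := fun _ => j), Finset.prod_const, Finset.card_range]
    intro x hx
    rw [Finset.mem_range] at hx
    rw [if_neg (by omega), if_pos (by omega)]
  have hB : (∏ x ∈ Finset.range h', (if h' + 1 + (x + 1) = 0 then 1 else
      if h' + 1 + (x + 1) < h' + 1 then j else
      if h' + 1 + (x + 1) = h' + 1 then 1 else m)) = m ^ h' := by
    rw [Finset.prod_congr rfl (g := fun _ => m), Finset.prod_const, Finset.card_range]
    intro x hx
    rw [if_neg (by omega), if_neg (by omega), if_neg (by omega)]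
  rw [hA, hB]
  simp

lemma nv_of_lt {k n : ℕ} (w : Fin k → Fin n) {j : ℕ} (hj : j < k) :
    nv w j = (w ⟨j, hj⟩ : ℕ) := by
  unfold nv
  rw [dif_pos hj]

lemma mem_Pset {h n m : ℕ} (hh : 0 < h) (w : Fin (2 * h) → Fin n) :
    w ∈ Pset h n m ↔ nv w h = m ∧ ∀ j < 2 * h, j ≠ h → nv w j < m := by
  unfold Pset
  rw [Fintype.mem_piFinset]
  constructor
  · intro H
    constructor
    · have := H ⟨h, by omega⟩
      rw [if_pos rfl] at this
      rw [nv_of_lt w (by omega)]
      simpa [eqS] using this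
    · intro j hj hjh
      have := H ⟨j, hj⟩
      rw [if_neg hjh] at this
      rw [nv_of_lt w hj]
      simpa [ltS] using this
  · rintro ⟨h1, h2⟩ ⟨j, hj⟩
    dsimp only
    split_ifs with hjh
    · subst hjh
      rw [nv_of_lt w hj] at h1
      simpa [eqS] using h1
    · have := h2 j hj hjh
      rw [nv_of_lt w hj] at this
      simpa [ltS] using this

lemma mem_Rset {h n j m : ℕ} (w : Fin (2 * h) → Fin n)
    (hw : w ∈ Pset h n m) (hh : 0 < h) (h0 : nv w 0 = j) (ht : tall h (nv w) 0) :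
    w ∈ Rset h n j m := by
  rw [mem_Pset hh] at hw
  unfold Rset
  rw [Fintype.mem_piFinset]
  rintro ⟨i, hi⟩
  dsimp only
  split_ifs with h1 h2 h3
  · subst h1
    rw [nv_of_lt w hi] at h0
    simpa [eqS] using h0
  · have := ht i (by omega) h2
    rw [zero_add, h0, nv_of_lt w hi] at this
    simpa [ltS] using this
  · have := hw.1
    subst h3
    rw [nv_of_lt w hi] at this
    simpa [eqS] using this
  · have := hw.2 i hi h3
    rw [nv_of_lt w hi] at this
    simpa [ltS] using this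

open Classical in
/-- part of the code with maximum `m` -/
noncomputable def Tset (h n c m : ℕ) : Finset (Fin (2 * h) → Fin n) :=
  Pset h n m \ (Finset.Ico c m).biUnion (fun j => Rset h n j m)

lemma card_Tset {h n c m : ℕ} (hh : 0 < h) (hm : m < n) :
    (m : ℝ) ^ (2 * h - 1) - (∑ j ∈ Finset.Ico c m, (j : ℝ) ^ (h - 1)) * (m : ℝ) ^ (h - 1)
      ≤ ((Tset h n c m).card : ℝ) := by
  classical
  have h1 : (Pset h n m).card ≤ (Tset h n c m).card +
      ((Finset.Ico c m).biUnion (fun j => Rset h n j m)).card := by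
    have := Finset.card_sdiff_add_card (Pset h n m)
      ((Finset.Ico c m).biUnion (fun j => Rset h n j m))
    unfold Tset
    have h2 := Finset.card_le_card
      (Finset.subset_union_left (s₁ := Pset h n m)
        (s₂ := (Finset.Ico c m).biUnion (fun j => Rset h n j m)))
    omega
  have h2 : ((Finset.Ico c m).biUnion (fun j => Rset h n j m)).card
      ≤ ∑ j ∈ Finset.Ico c m, j ^ (h - 1) * m ^ (h - 1) := by
    refine Finset.card_biUnion_le.trans (Finset.sum_le_sum ?_)
    intro j hj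
    rw [Finset.mem_Ico] at hj
    exact (card_Rset hh hj.2 hm).le
  rw [card_Pset hh hm] at h1
  have h3 : m ^ (2 * h - 1) ≤ (Tset h n c m).card +
      ∑ j ∈ Finset.Ico c m, j ^ (h - 1) * m ^ (h - 1) := h1.trans (by omega)
  have h4 : ((m ^ (2 * h - 1) : ℕ) : ℝ) ≤ (((Tset h n c m).card +
      ∑ j ∈ Finset.Ico c m, j ^ (h - 1) * m ^ (h - 1) : ℕ) : ℝ) := by exact_mod_cast h3
  push_cast at h4
  rw [← Finset.sum_mul] at h4
  linarith

lemma Tset_subset_code {h n c1 c2 m : ℕ} (hh : 0 < h) (hm : c1 ≤ m) :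
    Tset h n (if m < c2 then c1 else c2) m ⊆ code h c1 c2 n := by
  classical
  intro w hw
  unfold Tset at hw
  rw [Finset.mem_sdiff] at hw
  obtain ⟨hP, hR⟩ := hw
  have hP' := (mem_Pset hh w).1 hP
  simp only [Finset.mem_biUnion, Finset.mem_Ico, not_exists, not_and, and_imp] at hR
  unfold code
  rw [Finset.mem_filter]
  refine ⟨Finset.mem_univ _, ?_, ?_⟩
  · rw [hP'.1]
    exact hP'.2
  · have htall : tall h (nv w) h := by
      intro j hj hjh
      rw [hP'.1]
      exact hP'.2 _ (by omega) (by omega)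
    have hty : typ h c1 c2 (nv w) h = if m < c2 then 1 else 2 := by
      unfold typ
      rw [if_pos htall, hP'.1, if_neg (by omega)]
    rw [hty]
    by_contra hcon
    rw [not_lt] at hcon
    have hm0 : nv w 0 < m := hP'.2 0 (by omega) (by omega)
    unfold typ at hcon
    by_cases ht0 : tall h (nv w) 0
    · rw [if_pos ht0] at hcon
      refine hR (nv w 0) ?_ hm0 (mem_Rset w hP hh rfl ht0)
      split_ifs at hcon ⊢ <;> omega
    · rw [if_neg ht0] at hcon
      split_ifs at hcon <;> omega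

lemma Tset_disj {h n c c' m m' : ℕ} (hh : 0 < h) (hm : m ≠ m') :
    Disjoint (Tset h n c m) (Tset h n c' m') := by
  classical
  rw [Finset.disjoint_left]
  intro w hw hw'
  unfold Tset at hw hw'
  rw [Finset.mem_sdiff] at hw hw'
  have h1 := ((mem_Pset hh w).1 hw.1).1
  have h2 := ((mem_Pset hh w).1 hw'.1).1
  omega

lemma card_code_ge {h n c1 c2 : ℕ} (hh : 0 < h) (hc : c1 ≤ c2) (hn : c2 ≤ n) :
    (∑ m ∈ Finset.Ico c1 c2, ((m : ℝ) ^ (2 * h - 1) -
      (∑ j ∈ Finset.Ico c1 m, (j : ℝ) ^ (h - 1)) * (m : ℝ) ^ (h - 1))) +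
    (∑ m ∈ Finset.Ico c2 n, ((m : ℝ) ^ (2 * h - 1) -
      (∑ j ∈ Finset.Ico c2 m, (j : ℝ) ^ (h - 1)) * (m : ℝ) ^ (h - 1)))
      ≤ ((code h c1 c2 n).card : ℝ) := by
  classical
  have h1 : (Finset.Ico c1 n).biUnion (fun m => Tset h n (if m < c2 then c1 else c2) m)
      ⊆ code h c1 c2 n := by
    intro w hw
    rw [Finset.mem_biUnion] at hw
    obtain ⟨m, hm, hw⟩ := hw
    rw [Finset.mem_Ico] at hm
    exact Tset_subset_code hh hm.1 hw
  have h2 := Finset.card_le_card h1
  rw [Finset.card_biUnion (fun m _ m' _ hmm => Tset_disj hh hmm)] at h2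
  have h3 : (∑ m ∈ Finset.Ico c1 n, ((m : ℝ) ^ (2 * h - 1) -
      (∑ j ∈ Finset.Ico (if m < c2 then c1 else c2) m, (j : ℝ) ^ (h - 1)) * (m : ℝ) ^ (h - 1)))
      ≤ ∑ m ∈ Finset.Ico c1 n, ((Tset h n (if m < c2 then c1 else c2) m).card : ℝ) := by
    refine Finset.sum_le_sum ?_
    intro m hm
    rw [Finset.mem_Ico] at hm
    exact card_Tset hh hm.2
  rw [← Finset.sum_Ico_consecutive _ hc hn] at h3
  refine le_trans (le_of_eq ?_) (h3.trans (by exact_mod_cast h2))
  congr 1
  · refine Finset.sum_congr rfl ?_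
    intro m hm
    rw [Finset.mem_Ico] at hm
    rw [if_pos hm.2]
  · refine Finset.sum_congr rfl ?_
    intro m hm
    rw [Finset.mem_Ico] at hm
    rw [if_neg (by omega)]

/-! ### Estimates -/

lemma pow_add_le (p : ℕ) (x : ℝ) (hx : 0 ≤ x) :
    x ^ (p + 1) + (p + 1) * x ^ p ≤ (x + 1) ^ (p + 1) := by
  induction p with
  | zero => simp
  | succ p ih =>
    have h1 : (x + 1) ^ (p + 1 + 1) = (x + 1) * (x + 1) ^ (p + 1) := by ring
    have h2 : (x + 1) * (x ^ (p + 1) + (p + 1) * x ^ p) ≤ (x + 1) * (x + 1) ^ (p + 1) :=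
      mul_le_mul_of_nonneg_left ih (by linarith)
    have h3 : (x + 1) * (x ^ (p + 1) + (p + 1) * x ^ p) =
      x ^ (p + 1 + 1) + ((p : ℝ) + 2) * x ^ (p + 1) + (p + 1) * x ^ p := by ring
    have h4 : 0 ≤ ((p : ℝ) + 1) * x ^ p := by positivity
    push_cast
    rw [h1]
    linarith

lemma pow_add_ge (p : ℕ) (x : ℝ) (hx : 0 ≤ x) :
    (x + 1) ^ (p + 1) ≤ x ^ (p + 1) + (p + 1) * (x + 1) ^ p := by
  induction p with
  | zero => simp
  | succ p ih =>
    have h1 : (x + 1) ^ (p + 1 + 1) = x * (x + 1) ^ (p + 1) + (x + 1) ^ (p + 1) := by ring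
    have h2 : x * (x + 1) ^ (p + 1) ≤ x * (x ^ (p + 1) + (p + 1) * (x + 1) ^ p) :=
      mul_le_mul_of_nonneg_left ih hx
    have h3 : x * (x ^ (p + 1) + (p + 1) * (x + 1) ^ p) =
      x ^ (p + 1 + 1) + (p + 1) * ((x + 1) ^ (p + 1) - (x + 1) ^ p) := by ring
    have h4 : 0 ≤ ((p : ℝ) + 1) * (x + 1) ^ p := by positivity
    push_cast
    rw [h1]
    nlinarith

lemma sum_pow_le (p c m : ℕ) (h : c ≤ m) :
    (∑ j ∈ Finset.Ico c m, (j : ℝ) ^ p) ≤ ((m : ℝ) ^ (p + 1) - (c : ℝ) ^ (p + 1)) / (p + 1) := by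
  induction m, h using Nat.le_induction with
  | base => simp
  | succ m hm ih =>
    rw [Finset.sum_Ico_succ_top hm]
    have h1 := pow_add_le p (m : ℝ) (by positivity)
    have h2 : (0 : ℝ) < p + 1 := by positivity
    rw [le_div_iff₀ h2] at ih ⊢
    push_cast
    nlinarith

lemma sum_pow_ge (p a b : ℕ) (h : a ≤ b) :
    ((b : ℝ) ^ (p + 1) - (a : ℝ) ^ (p + 1)) / (p + 1) - ((b : ℝ) ^ p - (a : ℝ) ^ p) ≤
      (∑ j ∈ Finset.Ico a b, (j : ℝ) ^ p) := by
  induction b, h using Nat.le_induction with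
  | base => simp
  | succ m hm ih =>
    rw [Finset.sum_Ico_succ_top hm]
    have h1 := pow_add_ge p (m : ℝ) (by positivity)
    have h2 : (0 : ℝ) < p + 1 := by positivity
    have h3 : (((m : ℝ) + 1) ^ (p + 1) - (m : ℝ) ^ (p + 1)) / (p + 1) ≤ ((m : ℝ) + 1) ^ p := by
      rw [div_le_iff₀ h2]
      linarith
    push_cast
    have h4 : (((m : ℝ) + 1) ^ (p + 1) - (a : ℝ) ^ (p + 1)) / (p + 1) =
      (((m : ℝ) + 1) ^ (p + 1) - (m : ℝ) ^ (p + 1)) / (p + 1) +
      ((m : ℝ) ^ (p + 1) - (a : ℝ) ^ (p + 1)) / (p + 1) := by ring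
    rw [h4]
    linarith

lemma block_ge {h a b : ℕ} (hh : 0 < h) (hab : a ≤ b) :
    (1 - 1 / (h : ℝ)) * (((b : ℝ) ^ (2 * h) - (a : ℝ) ^ (2 * h)) / (2 * h) - (b : ℝ) ^ (2 * h - 1))
      + ((a : ℝ) ^ h / h) * (((b : ℝ) ^ h - (a : ℝ) ^ h) / h - (b : ℝ) ^ (h - 1)) ≤
    ∑ m ∈ Finset.Ico a b, ((m : ℝ) ^ (2 * h - 1) -
      (∑ j ∈ Finset.Ico a m, (j : ℝ) ^ (h - 1)) * (m : ℝ) ^ (h - 1)) := by
  obtain ⟨p, rfl⟩ : ∃ p, h = p + 1 := ⟨h - 1, by omega⟩
  have e1 : 2 * (p + 1) - 1 = 2 * p + 1 := by omega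
  rw [e1, Nat.add_sub_cancel]
  have hp : (0 : ℝ) < (p : ℝ) + 1 := by positivity
  have step : ∀ m ∈ Finset.Ico a b,
      (1 - 1 / ((p : ℝ) + 1)) * (m : ℝ) ^ (2 * p + 1) +
        ((a : ℝ) ^ (p + 1) / (p + 1)) * (m : ℝ) ^ p ≤
      (m : ℝ) ^ (2 * p + 1) - (∑ j ∈ Finset.Ico a m, (j : ℝ) ^ p) * (m : ℝ) ^ p := by
    intro m hm
    rw [Finset.mem_Ico] at hm
    have h1 := sum_pow_le p a m hm.1
    have h2 : (∑ j ∈ Finset.Ico a m, (j : ℝ) ^ p) * (m : ℝ) ^ p ≤
      ((m : ℝ) ^ (p + 1) - (a : ℝ) ^ (p + 1)) / (p + 1) * (m : ℝ) ^ p :=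
      mul_le_mul_of_nonneg_right h1 (by positivity)
    have h3 : ((m : ℝ) ^ (p + 1) - (a : ℝ) ^ (p + 1)) / (p + 1) * (m : ℝ) ^ p =
      (1 / ((p : ℝ) + 1)) * (m : ℝ) ^ (2 * p + 1) -
        ((a : ℝ) ^ (p + 1) / (p + 1)) * (m : ℝ) ^ p := by ring
    linarith
  refine le_trans ?_ (Finset.sum_le_sum step)
  rw [Finset.sum_add_distrib, ← Finset.mul_sum, ← Finset.mul_sum]
  have h1 := sum_pow_ge (2 * p + 1) a b hab
  have h2 := sum_pow_ge p a b hab
  have c1 : 0 ≤ 1 - 1 / ((p : ℝ) + 1) := by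
    have : 1 / ((p : ℝ) + 1) ≤ 1 := by
      rw [div_le_one hp]
      have : (0 : ℝ) ≤ p := by positivity
      linarith
    linarith
  have c2 : 0 ≤ (a : ℝ) ^ (p + 1) / (p + 1) := by positivity
  push_cast at h1 h2 ⊢
  have e2 : 2 * (p + 1) = 2 * p + 1 + 1 := by ring
  have e3 : (2 * ((p : ℝ) + 1)) = 2 * p + 1 + 1 := by ring
  rw [e2, e3]
  have h3 : 0 ≤ (a : ℝ) ^ (2 * p + 1) := by positivity
  have h4 : 0 ≤ (a : ℝ) ^ p := by positivity
  refine add_le_add (mul_le_mul_of_nonneg_left ?_ c1) (mul_le_mul_of_nonneg_left ?_ c2)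
  · linarith
  · linarith

open Filter Topology

/-- the main estimate -/
theorem lower_half (h : ℕ) (hh : 0 < h) :
    (1 : ℝ) / (2 * h + 1) ≤
      liminf (fun n : ℕ => (W (2 * h) n : ℝ) / (n : ℝ) ^ (2 * h)) atTop := by
  have hR : (0 : ℝ) < h := by exact_mod_cast hh
  set A : ℝ := 1 / (2 * h + 1) with hA
  set B : ℝ := (h + 1) / (2 * h + 1) with hB
  have hA0 : 0 < A := by positivity
  have hB0 : 0 < B := by positivity
  have hAB : A ≤ B := by
    rw [hA, hB]
    gcongr
    linarith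
  have hB1 : B ≤ 1 := by
    rw [hB, div_le_one (by positivity)]
    linarith
  set x : ℝ := A ^ ((1 : ℝ) / h) with hx
  set y : ℝ := B ^ ((1 : ℝ) / h) with hy
  have hx0 : 0 ≤ x := by positivity
  have hy0 : 0 ≤ y := by positivity
  have hxh : x ^ h = A := by
    rw [hx, ← Real.rpow_natCast, ← Real.rpow_mul hA0.le]
    rw [one_div, inv_mul_cancel₀ hR.ne', Real.rpow_one]
  have hyh : y ^ h = B := by
    rw [hy, ← Real.rpow_natCast, ← Real.rpow_mul hB0.le]
    rw [one_div, inv_mul_cancel₀ hR.ne', Real.rpow_one]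
  have hxy : x ≤ y := Real.rpow_le_rpow hA0.le hAB (by positivity)
  have hy1 : y ≤ 1 := Real.rpow_le_one hB0.le hB1 (by positivity)
  -- the approximating function
  let F : ℝ × ℝ × ℝ → ℝ := fun q =>
    (1 - 1 / (h : ℝ)) * ((q.2.1 ^ (2 * h) - q.1 ^ (2 * h)) / (2 * h) - q.2.1 ^ (2 * h - 1) * q.2.2)
      + (q.1 ^ h / h) * ((q.2.1 ^ h - q.1 ^ h) / h - q.2.1 ^ (h - 1) * q.2.2)
    + ((1 - 1 / (h : ℝ)) * ((1 - q.2.1 ^ (2 * h)) / (2 * h) - q.2.2)
      + (q.2.1 ^ h / h) * ((1 - q.2.1 ^ h) / h - q.2.2))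
  have hF : Continuous F := by fun_prop
  let u : ℕ → ℝ := fun n => (⌊x * n⌋₊ : ℝ) / n
  let v : ℕ → ℝ := fun n => (⌊y * n⌋₊ : ℝ) / n
  have hu : Tendsto u atTop (𝓝 x) :=
    (tendsto_nat_floor_mul_div_atTop hx0).comp tendsto_natCast_atTop_atTop
  have hv : Tendsto v atTop (𝓝 y) :=
    (tendsto_nat_floor_mul_div_atTop hy0).comp tendsto_natCast_atTop_atTop
  have hz : Tendsto (fun n : ℕ => 1 / (n : ℝ)) atTop (𝓝 0) := tendsto_one_div_atTop_nhds_zero_nat
  have hlim : Tendsto (fun n : ℕ => F (u n, v n, 1 / (n : ℝ))) atTop (𝓝 (F (x, y, 0))) :=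
    (hF.tendsto (x, y, 0)).comp (hu.prodMk_nhds (hv.prodMk_nhds hz))
  have hval : F (x, y, 0) = 1 / (2 * h + 1) := by
    have e1 : x ^ (2 * h) = A ^ 2 := by rw [mul_comm, pow_mul, hxh]
    have e2 : y ^ (2 * h) = B ^ 2 := by rw [mul_comm, pow_mul, hyh]
    simp only [F, e1, e2, hxh, hyh, mul_zero, sub_zero]
    rw [hA, hB]
    field_simp
    ring
  rw [hval, ← hA] at hlim
  rw [← hlim.liminf_eq]
  refine liminf_le_liminf ?_ ?_ ?_
  · filter_upwards [eventually_gt_atTop 0] with n hn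
    have hn' : (0 : ℝ) < n := by exact_mod_cast hn
    have hc12 : ⌊x * n⌋₊ ≤ ⌊y * n⌋₊ :=
      Nat.floor_le_floor (mul_le_mul_of_nonneg_right hxy hn'.le)
    have hc2n : ⌊y * n⌋₊ ≤ n := by
      have : y * n ≤ n := by nlinarith
      calc ⌊y * n⌋₊ ≤ ⌊(n : ℝ)⌋₊ := Nat.floor_le_floor this
        _ = n := Nat.floor_natCast n
    have h1 := card_code_ge (h := h) (n := n) hh hc12 hc2n
    have h2 := block_ge (h := h) hh hc12
    have h3 := block_ge (h := h) hh hc2n
    have h4 : ((code h ⌊x * n⌋₊ ⌊y * n⌋₊ n).card : ℝ) ≤ W (2 * h) n := by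
      exact_mod_cast card_le_W _ (commaFree_code h _ _ n hh)
    rw [le_div_iff₀ (by positivity)]
    refine le_trans (le_of_eq ?_) ((add_le_add h2 h3).trans (h1.trans h4))
    have hu' : (⌊x * n⌋₊ : ℝ) = u n * n := by
      simp only [u]
      field_simp
    have hv' : (⌊y * n⌋₊ : ℝ) = v n * n := by
      simp only [v]
      field_simp
    rw [hu', hv']
    simp only [F, mul_pow]
    obtain ⟨p, rfl⟩ : ∃ p, h = p + 1 := ⟨h - 1, by omega⟩
    have e1 : 2 * (p + 1) - 1 = 2 * p + 1 := by omega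
    rw [e1, Nat.add_sub_cancel]
    push_cast
    field_simp
    ring
  · exact hlim.isBoundedUnder_ge
  · refine IsBoundedUnder.isCoboundedUnder_ge ?_
    refine ⟨1, ?_⟩
    rw [eventually_map]
    filter_upwards [eventually_gt_atTop 0] with n hn
    have hn' : (0 : ℝ) < n := by exact_mod_cast hn
    rw [div_le_one (by positivity)]
    have : W (2 * h) n ≤ n ^ (2 * h) := by
      apply csSup_le'
      rintro m ⟨D, _, rfl⟩
      refine (Finset.card_le_univ _).trans ?_
      simp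
    exact_mod_cast this

end Pool.Agent.CF24
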