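import Mathlib
import Pool.Agent.CF24.Defs

namespace Pool.Agent.CF24

open Classical

/-- indicator of a proposition -/
noncomputable def ind (P : Prop) : ℝ := if P then 1 else 0

lemma ind_nonneg (P : Prop) : 0 ≤ ind P := by
  unfold ind
  split_ifs <;> norm_num

lemma ind_le_one (P : Prop) : ind P ≤ 1 := by
  unfold ind
  split_ifs <;> norm_num

lemma ind_of {P : Prop} (h : P) : ind P = 1 := if_pos h

lemma ind_of_not {P : Prop} (h : ¬ P) : ind P = 0 := if_neg h

/-- number of words with property `g`, as a real number -/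
noncomputable def Mcount {n h : ℕ} (g : (Fin h → Fin n) → Prop) : ℝ :=
  ∑ x : Fin h → Fin n, ind (g x)

/-- all mixtures of `x` and `y` have property `g` -/
def AllMix {n h : ℕ} (g : (Fin h → Fin n) → Prop) (x y : Fin h → Fin n) : Prop :=
  ∀ z : Fin h → Fin n, (∀ j, z j = x j ∨ z j = y j) → g z

/-- number of pairs of words all of whose mixtures have property `g` -/
noncomputable def Ccount {n h : ℕ} (g : (Fin h → Fin n) → Prop) : ℝ :=
  ∑ x : Fin h → Fin n, ∑ y : Fin h → Fin n, ind (AllMix g x y)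

lemma sum_cons {n h : ℕ} (F : (Fin (h + 1) → Fin n) → ℝ) :
    ∑ x, F x = ∑ b : Fin n, ∑ x' : Fin h → Fin n, F (Fin.cons b x') := by
  rw [← (Fin.consEquiv (fun _ => Fin n)).sum_comp F, Fintype.sum_prod_type]
  rfl

lemma allMix_cons {n h : ℕ} (g : (Fin (h + 1) → Fin n) → Prop) (b d : Fin n)
    (x y : Fin h → Fin n) :
    AllMix g (Fin.cons b x) (Fin.cons d y) ↔
      AllMix (fun z => g (Fin.cons b z) ∧ g (Fin.cons d z)) x y := by
  constructor
  · intro H z hz
    constructor
    · apply H
      intro j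
      refine Fin.cases ?_ (fun i => ?_) j
      · left; rfl
      · simpa using hz i
    · apply H
      intro j
      refine Fin.cases ?_ (fun i => ?_) j
      · right; rfl
      · simpa using hz i
  · intro H z hz
    have h0 := hz 0
    have h1 : ∀ i : Fin h, z i.succ = x i ∨ z i.succ = y i := by
      intro i
      simpa using hz i.succ
    have h2 := H (fun i => z i.succ) h1
    have h3 : z = Fin.cons (z 0) (fun i => z i.succ) := by
      ext j
      refine Fin.cases ?_ (fun i => ?_) j <;> simp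
    rw [h3]
    simp only [Fin.cons_zero] at h0
    rcases h0 with h0 | h0
    · rw [h0]; exact h2.1
    · rw [h0]; exact h2.2

lemma Ccount_succ {n h : ℕ} (g : (Fin (h + 1) → Fin n) → Prop) :
    Ccount g = ∑ b : Fin n, ∑ d : Fin n,
      Ccount (fun z : Fin h → Fin n => g (Fin.cons b z) ∧ g (Fin.cons d z)) := by
  unfold Ccount
  rw [sum_cons]
  refine Finset.sum_congr rfl (fun b _ => ?_)
  rw [Finset.sum_comm' (t' := Finset.univ) (s' := fun _ => Finset.univ) (by simp)]
  rw [sum_cons]
  refine Finset.sum_congr rfl (fun d _ => ?_)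
  rw [Finset.sum_comm]
  refine Finset.sum_congr rfl (fun x _ => ?_)
  refine Finset.sum_congr rfl (fun y _ => ?_)
  simp only [allMix_cons]

lemma Mcount_nonneg {n h : ℕ} (g : (Fin h → Fin n) → Prop) : 0 ≤ Mcount g := by
  unfold Mcount
  exact Finset.sum_nonneg (fun x _ => ind_nonneg _)

lemma Mcount_sq {n h : ℕ} (g : (Fin (h + 1) → Fin n) → Prop) :
    (Mcount g) ^ 2 ≤ (n : ℝ) ^ h * ∑ b : Fin n, ∑ d : Fin n,
      Mcount (fun z : Fin h → Fin n => g (Fin.cons b z) ∧ g (Fin.cons d z)) := by
  unfold Mcount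
  rw [sum_cons, Finset.sum_comm]
  have h1 := sq_sum_le_card_mul_sum_sq (s := (Finset.univ : Finset (Fin h → Fin n)))
    (f := fun x => ∑ b : Fin n, ind (g (Fin.cons b x)))
  have h2 : (((Finset.univ : Finset (Fin h → Fin n)).card : ℕ) : ℝ) = (n : ℝ) ^ h := by
    simp
  rw [h2] at h1
  refine h1.trans (le_of_eq ?_)
  congr 1
  have h3 : ∀ x : Fin h → Fin n, (∑ b : Fin n, ind (g (Fin.cons b x))) ^ 2 =
      ∑ b : Fin n, ∑ d : Fin n, ind (g (Fin.cons b x) ∧ g (Fin.cons d x)) := by
    intro x
    rw [sq, Finset.sum_mul_sum]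
    refine Finset.sum_congr rfl (fun b _ => Finset.sum_congr rfl (fun d _ => ?_))
    by_cases hb : g (Fin.cons b x) <;> by_cases hd : g (Fin.cons d x) <;> simp [ind, hb, hd]
  simp_rw [h3]
  exact Finset.sum_comm.trans (Finset.sum_congr rfl (fun b _ => Finset.sum_comm))

lemma pow_sum_sum_le {n : ℕ} (F : Fin n → Fin n → ℝ) (hF : ∀ b d, 0 ≤ F b d) (m : ℕ) :
    (∑ b, ∑ d, F b d) ^ (m + 1) ≤ ((n : ℝ) ^ 2) ^ m * ∑ b, ∑ d, (F b d) ^ (m + 1) := by
  have := pow_sum_le_card_mul_sum_pow (s := (Finset.univ : Finset (Fin n × Fin n)))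
    (f := fun q => F q.1 q.2) (fun q _ => hF q.1 q.2) m
  rw [Fintype.sum_prod_type, Fintype.sum_prod_type] at this
  refine this.trans (le_of_eq ?_)
  congr 2
  simp [sq]

lemma box {n h : ℕ} (g : (Fin h → Fin n) → Prop) :
    (Mcount g) ^ (2 ^ h) ≤ (n : ℝ) ^ (h * (2 ^ h - 2)) * Ccount g := by
  induction h with
  | zero =>
    unfold Mcount Ccount AllMix
    have hu : (Finset.univ : Finset (Fin 0 → Fin n)) = {Fin.elim0} := by
      ext x
      simp only [Finset.mem_univ, Finset.mem_singleton, true_iff]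
      exact Subsingleton.elim _ _
    rw [hu]
    simp only [Finset.sum_singleton]
    by_cases hg : g Fin.elim0
    · rw [ind_of hg, ind_of]
      · simp
      · intro z _
        rw [Subsingleton.elim z Fin.elim0]
        exact hg
    · rw [ind_of_not hg]
      simp only [pow_zero, pow_one, Nat.zero_mul, one_mul]
      exact ind_nonneg _
  | succ h ih =>
    rw [Ccount_succ]
    have h1 := Mcount_sq g
    have h0 := Mcount_nonneg g
    set S : ℝ := ∑ b : Fin n, ∑ d : Fin n,
      Mcount (fun z : Fin h → Fin n => g (Fin.cons b z) ∧ g (Fin.cons d z)) with hS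
    have hS0 : 0 ≤ S := Finset.sum_nonneg (fun b _ => Finset.sum_nonneg (fun d _ =>
      Mcount_nonneg _))
    have h2 : (Mcount g) ^ (2 ^ (h + 1)) ≤ ((n : ℝ) ^ h * S) ^ (2 ^ h) := by
      rw [pow_succ' 2 h, pow_mul]
      exact pow_le_pow_left₀ (by positivity) h1 _
    obtain ⟨m, hm⟩ : ∃ m, 2 ^ h = m + 1 := ⟨2 ^ h - 1, by
      have : 1 ≤ 2 ^ h := Nat.one_le_two_pow
      omega⟩
    have h3 : S ^ (2 ^ h) ≤ ((n : ℝ) ^ 2) ^ m * ∑ b : Fin n, ∑ d : Fin n,
      (Mcount (fun z : Fin h → Fin n => g (Fin.cons b z) ∧ g (Fin.cons d z))) ^ (2 ^ h) := by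
      rw [hm]
      exact pow_sum_sum_le (fun b d => Mcount (fun z : Fin h → Fin n =>
        g (Fin.cons b z) ∧ g (Fin.cons d z))) (fun b d => Mcount_nonneg _) m
    have h4 : (∑ b : Fin n, ∑ d : Fin n,
      (Mcount (fun z : Fin h → Fin n => g (Fin.cons b z) ∧ g (Fin.cons d z))) ^ (2 ^ h)) ≤
      ∑ b : Fin n, ∑ d : Fin n, (n : ℝ) ^ (h * (2 ^ h - 2)) *
        Ccount (fun z : Fin h → Fin n => g (Fin.cons b z) ∧ g (Fin.cons d z)) :=
      Finset.sum_le_sum (fun b _ => Finset.sum_le_sum (fun d _ => ih _))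
    simp_rw [← Finset.mul_sum] at h4
    set T : ℝ := ∑ b : Fin n, ∑ d : Fin n,
      Ccount (fun z : Fin h → Fin n => g (Fin.cons b z) ∧ g (Fin.cons d z)) with hT
    calc (Mcount g) ^ (2 ^ (h + 1)) ≤ ((n : ℝ) ^ h * S) ^ (2 ^ h) := h2
      _ = ((n : ℝ) ^ h) ^ (2 ^ h) * S ^ (2 ^ h) := by rw [mul_pow]
      _ ≤ ((n : ℝ) ^ h) ^ (2 ^ h) * (((n : ℝ) ^ 2) ^ m * ((n : ℝ) ^ (h * (2 ^ h - 2)) * T)) := by
          refine mul_le_mul_of_nonneg_left ?_ (by positivity)
          exact h3.trans (mul_le_mul_of_nonneg_left h4 (by positivity))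
      _ = (n : ℝ) ^ ((h + 1) * (2 ^ (h + 1) - 2)) * T := by
          rw [← pow_mul, ← pow_mul, ← mul_assoc, ← mul_assoc, ← pow_add, ← pow_add]
          congr 2
          rw [pow_succ, hm]
          rcases h with _ | h
          · simp at hm
            subst hm
            simp
          · obtain ⟨r, hr⟩ : ∃ r, m = r + 1 := ⟨m - 1, by
              have : 2 ≤ 2 ^ (h + 1) := by
                rw [pow_succ]
                have : 1 ≤ 2 ^ h := Nat.one_le_two_pow
                omega
              omega⟩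
            subst hr
            have e1 : r + 1 + 1 - 2 = r := by omega
            have e2 : (r + 1 + 1) * 2 - 2 = 2 * r + 2 := by omega
            rw [e1, e2]
            ring

/-! ### Words, halves and rotations -/

/-- first half of a word -/
def fstH {h n : ℕ} (w : Fin (2 * h) → Fin n) : Fin h → Fin n :=
  fun j => w ⟨j, by omega⟩

/-- second half of a word -/
def sndH {h n : ℕ} (w : Fin (2 * h) → Fin n) : Fin h → Fin n :=
  fun j => w ⟨h + j, by omega⟩

/-- the word with given halves -/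
def glue {h n : ℕ} (x y : Fin h → Fin n) : Fin (2 * h) → Fin n :=
  fun j => if hj : (j : ℕ) < h then x ⟨j, hj⟩ else y ⟨j - h, by omega⟩

/-- words correspond to pairs of halves -/
def halves (h n : ℕ) : ((Fin h → Fin n) × (Fin h → Fin n)) ≃ (Fin (2 * h) → Fin n) where
  toFun q := glue q.1 q.2
  invFun w := (fstH w, sndH w)
  left_inv q := by
    obtain ⟨x, y⟩ := q
    ext j
    · simp [fstH, glue]
    · simp [sndH, glue]
  right_inv w := by
    ext j
    simp only [glue, fstH, sndH]
    split_ifs with hj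
    · rfl
    · congr 2
      ext
      simp
      omega

lemma sum_halves {h n : ℕ} (F : (Fin (2 * h) → Fin n) → ℝ) :
    ∑ w, F w = ∑ x : Fin h → Fin n, ∑ y : Fin h → Fin n, F (glue x y) := by
  rw [← (halves h n).sum_comp F, Fintype.sum_prod_type]
  rfl

lemma window_eq {k n : ℕ} (a b c : Fin k → Fin n) (i : ℕ) (hi : i ≤ k)
    (H : ∀ j : Fin k, c j = if hj : i + (j : ℕ) < k then a ⟨i + j, hj⟩ else
      b ⟨i + j - k, by omega⟩) :
    List.ofFn c = (List.ofFn a).drop i ++ (List.ofFn b).take i := by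
  apply List.ext_getElem
  · simp
    omega
  · intro j h1 h2
    simp only [List.length_ofFn] at h1
    rw [List.getElem_ofFn, H ⟨j, h1⟩]
    simp only
    split_ifs with hj
    · rw [List.getElem_append_left (by simp; omega)]
      simp
    · rw [List.getElem_append_right (by simp; omega)]
      simp only [List.getElem_take, List.getElem_ofFn, List.length_drop, List.length_ofFn]
      congr 2
      omega

/-- Two-sided types of half words: a comma-free set of words of length `2 h` gives a colouring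
of the half words by three colours such that no member of the set has halves of equal colour. -/
lemma exists_types {h n : ℕ} (hh : 0 < h) (D : Finset (Fin (2 * h) → Fin n))
    (hD : CommaFree D) :
    ∃ f : (Fin h → Fin n) → Fin 3, ∀ w ∈ D, f (fstH w) ≠ f (sndH w) := by
  let P : (Fin h → Fin n) → Prop := fun x => ∃ w ∈ D, fstH w = x
  let Q : (Fin h → Fin n) → Prop := fun x => ∃ w ∈ D, sndH w = x
  refine ⟨fun x => if P x then (if Q x then 2 else 0) else 1, ?_⟩
  intro w hw heq
  have h1 : P (fstH w) := ⟨w, hw, rfl⟩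
  have h2 : Q (sndH w) := ⟨w, hw, rfl⟩
  simp only [if_pos h1, if_pos h2] at heq
  by_cases h3 : Q (fstH w)
  · by_cases h4 : P (sndH w)
    · obtain ⟨a, ha, ha'⟩ := h3
      obtain ⟨b, hb, hb'⟩ := h4
      refine hD a ha b hb w hw h (by omega) (by omega) ?_
      apply window_eq _ _ _ _ (by omega)
      intro j
      split_ifs with hj
      · have := congrFun ha' ⟨j, by omega⟩
        simp only [sndH, fstH] at this
        exact this.symm
      · have := congrFun hb' ⟨j - h, by omega⟩
        simp only [sndH, fstH] at this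
        have e1 : (⟨h + ((j : ℕ) - h), by omega⟩ : Fin (2 * h)) = j := by
          ext
          simp
          omega
        rw [e1] at this
        rw [← this]
        congr 1
        ext
        simp
        omega
    · rw [if_pos h3, if_neg h4] at heq
      exact absurd heq (by decide)
  · by_cases h4 : P (sndH w)
    · rw [if_neg h3, if_pos h4] at heq
      exact absurd heq (by decide)
    · rw [if_neg h3, if_neg h4] at heq
      exact absurd heq (by decide)

/-- rotation of a word by `i` places -/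
def rot {k n : ℕ} [NeZero k] (i : Fin k) (w : Fin k → Fin n) : Fin k → Fin n :=
  fun j => w (j + i)

lemma rot_rot {k n : ℕ} [NeZero k] (i j : Fin k) (w : Fin k → Fin n) :
    rot i (rot j w) = rot (i + j) w := by
  funext l
  simp only [rot, add_assoc]

lemma rot_not_mem {k n : ℕ} [NeZero k] (D : Finset (Fin k → Fin n)) (hD : CommaFree D)
    (a : Fin k → Fin n) (ha : a ∈ D) (i : Fin k) (hi : i ≠ 0) : rot i a ∉ D := by
  intro hmem
  have hi0 : (i : ℕ) ≠ 0 := by
    intro h0
    apply hi
    ext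
    simpa using h0
  refine hD a ha a ha (rot i a) hmem i (by omega) (by omega) ?_
  apply window_eq _ _ _ _ (by omega)
  intro j
  unfold rot
  split_ifs with hj
  · congr 1
    ext
    rw [Fin.val_add, add_comm (j : ℕ), Nat.mod_eq_of_lt hj]
  · congr 1
    ext
    rw [Fin.val_add, add_comm (j : ℕ)]
    simp only
    rw [Nat.mod_eq_sub_mod (by omega), Nat.mod_eq_of_lt (by omega)]

lemma rot_unique {k n : ℕ} [NeZero k] (D : Finset (Fin k → Fin n)) (hD : CommaFree D)
    (w : Fin k → Fin n) (i j : Fin k) (hi : rot i w ∈ D) (hj : rot j w ∈ D) : i = j := by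
  by_contra hne
  have h1 : rot (i - j) (rot j w) = rot i w := by
    rw [rot_rot]
    congr 1
    abel
  refine rot_not_mem D hD (rot j w) hj (i - j) (sub_ne_zero.2 hne) ?_
  rw [h1]
  exact hi

lemma sum_rot {k n : ℕ} [NeZero k] (i : Fin k) (F : (Fin k → Fin n) → ℝ) :
    ∑ w, F (rot i w) = ∑ w, F w :=
  (Equiv.arrowCongr (Equiv.addRight i).symm (Equiv.refl (Fin n))).sum_comp F

/-- the colours of all rotations of a half word -/
def cvec {h n : ℕ} (f : (Fin h → Fin n) → Fin 3) (z : Fin h → Fin n) : Fin h → Fin 3 :=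
  fun i => f (fun j => z ⟨((i : ℕ) + j) % h, Nat.mod_lt _ (lt_of_le_of_lt (Nat.zero_le _) i.2)⟩)

lemma missing {h n : ℕ} [NeZero (2 * h)] (D : Finset (Fin (2 * h) → Fin n))
    (f : (Fin h → Fin n) → Fin 3) (hf : ∀ w ∈ D, f (fstH w) ≠ f (sndH w))
    (x y : Fin h → Fin n) (t : Fin h → Fin 3) (hm : AllMix (fun z => cvec f z = t) x y)
    (i : Fin (2 * h)) : rot i (glue x y) ∉ D := by
  intro hmem
  apply hf _ hmem
  have hh : 0 < h := by
    have := i.2
    omega
  set i' : ℕ := (i : ℕ) % h with hi'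
  have hi'h : i' < h := Nat.mod_lt _ hh
  have key : ∀ (u v : Fin h → Fin n),
      AllMix (fun z => cvec f z = t) u v →
      f (fun j : Fin h => if hj : i' + (j : ℕ) < h then u ⟨i' + j, hj⟩
        else v ⟨i' + j - h, by omega⟩) = t ⟨i', hi'h⟩ := by
    intro u v huv
    have h1 := huv (fun j => if (j : ℕ) < i' then v j else u j) (by
      intro j
      split_ifs
      · right; rfl
      · left; rfl)
    have h2 := congrFun h1 ⟨i', hi'h⟩
    rw [← h2]
    unfold cvec
    congr 1
    funext j
    dsimp only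
    split_ifs with ha hb hb
    · rw [Nat.mod_eq_of_lt ha] at hb
      omega
    · congr 1
      ext
      simp only
      rw [Nat.mod_eq_of_lt ha]
    · congr 1
      ext
      simp only
      rw [Nat.mod_eq_sub_mod (by omega), Nat.mod_eq_of_lt (by omega)]
    · rw [Nat.mod_eq_sub_mod (by omega), Nat.mod_eq_of_lt (by omega)] at hb
      omega
  have hxy := key x y hm
  have hyx := key y x (fun z hz => hm z (fun j => (hz j).symm))
  rcases lt_or_ge (i : ℕ) h with hlt | hge
  · have hii : i' = i := Nat.mod_eq_of_lt hlt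
    have e1 : fstH (rot i (glue x y)) = (fun j : Fin h => if hj : i' + (j : ℕ) < h then
        x ⟨i' + j, hj⟩ else y ⟨i' + j - h, by omega⟩) := by
      funext j
      simp only [fstH, rot, glue]
      have e : (((⟨j, by omega⟩ : Fin (2 * h)) + i : Fin (2 * h)) : ℕ) = i' + j := by
        rw [Fin.val_add, hii]
        simp only
        rw [add_comm, Nat.mod_eq_of_lt (by omega)]
      simp only [e]
    have e2 : sndH (rot i (glue x y)) = (fun j : Fin h => if hj : i' + (j : ℕ) < h then
        y ⟨i' + j, hj⟩ else x ⟨i' + j - h, by omega⟩) := by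
      funext j
      simp only [sndH, rot, glue]
      by_cases hj : i' + (j : ℕ) < h
      · have e : (((⟨h + j, by omega⟩ : Fin (2 * h)) + i : Fin (2 * h)) : ℕ) = h + (i' + j) := by
          rw [Fin.val_add, hii]
          simp only
          rw [Nat.mod_eq_of_lt (by omega)]
          omega
        simp only [e]
        rw [dif_pos hj, dif_neg (by omega)]
        congr 1
        ext
        simp
      · have e : (((⟨h + j, by omega⟩ : Fin (2 * h)) + i : Fin (2 * h)) : ℕ) = i' + j - h := by
          rw [Fin.val_add, hii]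
          simp only
          rw [Nat.mod_eq_sub_mod (by omega), Nat.mod_eq_of_lt (by omega)]
          omega
        simp only [e]
        rw [dif_neg hj, dif_pos (by omega)]
    rw [e1, e2, hxy, hyx]
  · have hii : i' + h = i := by
      rw [hi', Nat.mod_eq_sub_mod hge, Nat.mod_eq_of_lt (by omega)]
      omega
    have e1 : sndH (rot i (glue x y)) = (fun j : Fin h => if hj : i' + (j : ℕ) < h then
        x ⟨i' + j, hj⟩ else y ⟨i' + j - h, by omega⟩) := by
      funext j
      simp only [sndH, rot, glue]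
      have e : (((⟨h + j, by omega⟩ : Fin (2 * h)) + i : Fin (2 * h)) : ℕ) = i' + j := by
        rw [Fin.val_add, ← hii]
        simp only
        rw [Nat.mod_eq_sub_mod (by omega), Nat.mod_eq_of_lt (by omega)]
        omega
      simp only [e]
    have e2 : fstH (rot i (glue x y)) = (fun j : Fin h => if hj : i' + (j : ℕ) < h then
        y ⟨i' + j, hj⟩ else x ⟨i' + j - h, by omega⟩) := by
      funext j
      simp only [fstH, rot, glue]
      by_cases hj : i' + (j : ℕ) < h
      · have e : (((⟨j, by omega⟩ : Fin (2 * h)) + i : Fin (2 * h)) : ℕ) = h + (i' + j) := by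
          rw [Fin.val_add, ← hii]
          simp only
          rw [Nat.mod_eq_of_lt (by omega)]
          omega
        simp only [e]
        rw [dif_pos hj, dif_neg (by omega)]
        congr 1
        ext
        simp
      · have e : (((⟨j, by omega⟩ : Fin (2 * h)) + i : Fin (2 * h)) : ℕ) = i' + j - h := by
          rw [Fin.val_add, ← hii]
          simp only
          rw [Nat.mod_eq_sub_mod (by omega), Nat.mod_eq_of_lt (by omega)]
          omega
        simp only [e]
        rw [dif_neg hj, dif_pos (by omega)]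
    rw [e1, e2, hxy, hyx]

lemma per_word {h n : ℕ} [NeZero (2 * h)] (D : Finset (Fin (2 * h) → Fin n)) (hD : CommaFree D)
    (f : (Fin h → Fin n) → Fin 3) (hf : ∀ w ∈ D, f (fstH w) ≠ f (sndH w))
    (x y : Fin h → Fin n) :
    ∑ i : Fin (2 * h), ind (rot i (glue x y) ∈ D) +
      ∑ t : Fin h → Fin 3, ind (AllMix (fun z => cvec f z = t) x y) ≤ 1 := by
  by_cases hex : ∃ t, AllMix (fun z => cvec f z = t) x y
  · obtain ⟨t, ht⟩ := hex
    have h1 : ∑ i : Fin (2 * h), ind (rot i (glue x y) ∈ D) = 0 :=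
      Finset.sum_eq_zero (fun i _ => ind_of_not (missing D f hf x y t ht i))
    have h2 : ∑ t' : Fin h → Fin 3, ind (AllMix (fun z => cvec f z = t') x y) ≤ 1 := by
      rw [Finset.sum_eq_single t]
      · exact ind_le_one _
      · intro t' _ hne
        apply ind_of_not
        intro ht'
        apply hne
        have e1 := ht x (fun j => Or.inl rfl)
        have e2 := ht' x (fun j => Or.inl rfl)
        exact e2.symm.trans e1
      · intro h; exact absurd (Finset.mem_univ _) h
    linarith
  · have h1 : ∑ t : Fin h → Fin 3, ind (AllMix (fun z => cvec f z = t) x y) = 0 :=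
      Finset.sum_eq_zero (fun t _ => ind_of_not (fun ht => hex ⟨t, ht⟩))
    rw [h1, add_zero]
    by_cases hi : ∃ i, rot i (glue x y) ∈ D
    · obtain ⟨i, hi⟩ := hi
      rw [Finset.sum_eq_single i]
      · exact ind_le_one _
      · intro j _ hne
        apply ind_of_not
        intro hj
        exact hne (rot_unique D hD _ j i hj hi)
      · intro h; exact absurd (Finset.mem_univ _) h
    · rw [Finset.sum_eq_zero (fun i _ => ind_of_not (fun h => hi ⟨i, h⟩))]
      norm_num

/-- The upper bound for comma-free sets of words of even length `2 h`. -/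
theorem upper_card {h n : ℕ} (hh : 0 < h) (D : Finset (Fin (2 * h) → Fin n))
    (hD : CommaFree D) :
    (2 * h : ℝ) * D.card ≤ (n : ℝ) ^ (2 * h) * (1 - 1 / 3 ^ (h * (2 ^ h - 1))) := by
  have : NeZero (2 * h) := ⟨by omega⟩
  obtain ⟨f, hf⟩ := exists_types hh D hD
  have h1 : ∑ x : Fin h → Fin n, ∑ y : Fin h → Fin n,
      (∑ i : Fin (2 * h), ind (rot i (glue x y) ∈ D) +
        ∑ t : Fin h → Fin 3, ind (AllMix (fun z => cvec f z = t) x y)) ≤
      ∑ x : Fin h → Fin n, ∑ y : Fin h → Fin n, (1 : ℝ) :=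
    Finset.sum_le_sum (fun x _ => Finset.sum_le_sum (fun y _ => per_word D hD f hf x y))
  have h2 : ∑ x : Fin h → Fin n, ∑ y : Fin h → Fin n, (1 : ℝ) = (n : ℝ) ^ (2 * h) := by
    simp
    ring
  have h3 : ∑ x : Fin h → Fin n, ∑ y : Fin h → Fin n,
      ∑ i : Fin (2 * h), ind (rot i (glue x y) ∈ D) = (2 * h : ℝ) * D.card := by
    rw [← sum_halves (fun w => ∑ i : Fin (2 * h), ind (rot i w ∈ D)), Finset.sum_comm]
    have : ∀ i : Fin (2 * h), ∑ w : Fin (2 * h) → Fin n, ind (rot i w ∈ D) = D.card := by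
      intro i
      rw [sum_rot i (fun w => ind (w ∈ D)), ← Finset.sum_subset (Finset.subset_univ D)
        (fun w _ hw => ind_of_not hw), Finset.sum_congr rfl (fun w hw => ind_of hw)]
      simp
    simp [this]
  have h4 : ∑ x : Fin h → Fin n, ∑ y : Fin h → Fin n,
      ∑ t : Fin h → Fin 3, ind (AllMix (fun z => cvec f z = t) x y) =
      ∑ t : Fin h → Fin 3, Ccount (fun z => cvec f z = t) := by
    unfold Ccount
    have : ∀ x : Fin h → Fin n, ∑ y : Fin h → Fin n, ∑ t : Fin h → Fin 3,
      ind (AllMix (fun z => cvec f z = t) x y) = ∑ t : Fin h → Fin 3, ∑ y : Fin h → Fin n,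
      ind (AllMix (fun z => cvec f z = t) x y) := fun x => Finset.sum_comm
    simp_rw [this]
    exact Finset.sum_comm
  simp_rw [Finset.sum_add_distrib] at h1
  rw [h2, h3, h4] at h1
  -- lower bound for the number of missing words
  have h5 : ∑ t : Fin h → Fin 3, (Mcount (fun z : Fin h → Fin n => cvec f z = t)) ^ (2 ^ h) ≤
      (n : ℝ) ^ (h * (2 ^ h - 2)) * ∑ t : Fin h → Fin 3, Ccount (fun z => cvec f z = t) := by
    rw [Finset.mul_sum]
    exact Finset.sum_le_sum (fun t _ => box _)
  have h6 : ∑ t : Fin h → Fin 3, Mcount (fun z : Fin h → Fin n => cvec f z = t) =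
      (n : ℝ) ^ h := by
    unfold Mcount
    rw [Finset.sum_comm]
    have : ∀ z : Fin h → Fin n, ∑ t : Fin h → Fin 3, ind (cvec f z = t) = 1 := by
      intro z
      rw [Finset.sum_eq_single (cvec f z) (fun t _ ht => ind_of_not (fun h => ht h.symm))
        (fun h => absurd (Finset.mem_univ _) h)]
      exact ind_of rfl
    simp [this]
  obtain ⟨m, hm⟩ : ∃ m, 2 ^ h = m + 1 := ⟨2 ^ h - 1, by
    have : 1 ≤ 2 ^ h := Nat.one_le_two_pow
    omega⟩
  have h7 := pow_sum_le_card_mul_sum_pow (s := (Finset.univ : Finset (Fin h → Fin 3)))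
    (f := fun t => Mcount (fun z : Fin h → Fin n => cvec f z = t))
    (fun t _ => Mcount_nonneg _) m
  rw [h6, ← hm] at h7
  have h8 : (((Finset.univ : Finset (Fin h → Fin 3)).card : ℕ) : ℝ) ^ m =
      3 ^ (h * (2 ^ h - 1)) := by
    rw [hm, Nat.add_sub_cancel, pow_mul]
    simp
  rw [h8] at h7
  set T : ℝ := ∑ t : Fin h → Fin 3, Ccount (fun z : Fin h → Fin n => cvec f z = t) with hT
  have h9 : ((n : ℝ) ^ h) ^ (2 ^ h) ≤ 3 ^ (h * (2 ^ h - 1)) * ((n : ℝ) ^ (h * (2 ^ h - 2)) * T) :=
    h7.trans (mul_le_mul_of_nonneg_left h5 (by positivity))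
  rcases Nat.eq_zero_or_pos n with rfl | hn
  · have hz : ((0 : ℕ) : ℝ) ^ (2 * h) = 0 := by
      rw [Nat.cast_zero, zero_pow (by omega)]
    have hcard : D.card = 0 := by
      rw [Finset.card_eq_zero]
      apply Finset.eq_empty_of_forall_notMem
      intro w _
      exact (w ⟨0, by omega⟩).elim0
    rw [hz, hcard]
    simp
  · have hn' : (0 : ℝ) < n := by exact_mod_cast hn
    have h10 : ((n : ℝ) ^ h) ^ (2 ^ h) = (n : ℝ) ^ (h * (2 ^ h - 2)) * (n : ℝ) ^ (2 * h) := by
      rw [← pow_mul, ← pow_add]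
      congr 1
      have h11 : 2 ≤ 2 ^ h := by
        calc 2 = 2 ^ 1 := rfl
          _ ≤ 2 ^ h := Nat.pow_le_pow_right (by norm_num) hh
      obtain ⟨r, hr⟩ : ∃ r, 2 ^ h = r + 2 := ⟨2 ^ h - 2, by omega⟩
      rw [hr, Nat.add_sub_cancel]
      ring
    rw [h10] at h9
    have h12 : (n : ℝ) ^ (2 * h) ≤ 3 ^ (h * (2 ^ h - 1)) * T := by
      have h13 : (n : ℝ) ^ (h * (2 ^ h - 2)) * (n : ℝ) ^ (2 * h) ≤
        (n : ℝ) ^ (h * (2 ^ h - 2)) * (3 ^ (h * (2 ^ h - 1)) * T) := by linarith
      exact le_of_mul_le_mul_left h13 (by positivity)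
    have h14 : (n : ℝ) ^ (2 * h) * (1 / 3 ^ (h * (2 ^ h - 1))) ≤ T := by
      rw [mul_one_div, div_le_iff₀ (by positivity)]
      linarith
    rw [mul_sub, mul_one]
    linarith

/-- The upper bound for `W (2 h) n`. -/
theorem upper_W {h n : ℕ} (hh : 0 < h) :
    (2 * h : ℝ) * W (2 * h) n ≤ (n : ℝ) ^ (2 * h) * (1 - 1 / 3 ^ (h * (2 ^ h - 1))) := by
  have hne : {m : ℕ | ∃ D : Finset (Fin (2 * h) → Fin n), CommaFree D ∧ D.card = m}.Nonempty :=
    ⟨0, ∅, fun a ha => absurd ha (Finset.notMem_empty a), rfl⟩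
  have hbdd : BddAbove {m : ℕ | ∃ D : Finset (Fin (2 * h) → Fin n),
      CommaFree D ∧ D.card = m} := by
    refine ⟨Fintype.card (Fin (2 * h) → Fin n), ?_⟩
    rintro m ⟨D', _, rfl⟩
    exact Finset.card_le_univ _
  obtain ⟨D, hD, hcard⟩ := Nat.sSup_mem hne hbdd
  have := upper_card hh D hD
  rw [hcard] at this
  exact this

end Pool.Agent.CF24
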